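import Mathlib

/-!
# The number of isomorphism types of projective algebras generated by `k` plane sets

For every `k ≥ 1` there are exactly `2 ^ ℵ₀` isomorphism classes of projective algebras of plane
sets that are generated by `k` sets, and also exactly `2 ^ ℵ₀` isomorphism classes of projective
algebras that are generated by `k` sets but not by fewer than `k` sets.

Idea.  A relation `S` between the two axes can be an infinite path that starts at the origin; then all
vertices of the path are definable by terms, and the intersection of `S` with the axis codes an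
arbitrary set of natural numbers.  The code can be read off from the algebra and the generator, and
a countable algebra has only countably many generators.  In the third quadrant there is place for
`k` independent sets that all the operations of the algebra do not see; they make sure that fewer
than `k` sets do not suffice.
-/

open Set Cardinal

namespace Pool.Agent.Results.MP_71be7b_lc.ExactCount

/-- the horizontal axis `ℝ × {0}` -/
def axisX : Set (ℝ × ℝ) := {q | q.2 = 0}

/-- the vertical axis `{0} × ℝ` -/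
def axisY : Set (ℝ × ℝ) := {q | q.1 = 0}

/-- `π₁(S) = {(x, 0) : ∃ y, (x, y) ∈ S}` -/
def proj1 (S : Set (ℝ × ℝ)) : Set (ℝ × ℝ) := {q | q.2 = 0 ∧ ∃ y : ℝ, (q.1, y) ∈ S}

/-- `π₂(S) = {(0, y) : ∃ x, (x, y) ∈ S}` -/
def proj2 (S : Set (ℝ × ℝ)) : Set (ℝ × ℝ) := {q | q.1 = 0 ∧ ∃ x : ℝ, (x, q.2) ∈ S}

/-- `A ⊗ B = {(x, y) : (x, 0) ∈ A, (0, y) ∈ B}` -/
def box (A B : Set (ℝ × ℝ)) : Set (ℝ × ℝ) := {q | (q.1, (0 : ℝ)) ∈ A ∧ ((0 : ℝ), q.2) ∈ B}

/-- A projective algebra of plane sets: closed under complement, finite unions, both projections,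
and `A ⊗ B` for `A` contained in the horizontal and `B` contained in the vertical axis. -/
structure IsProjectiveAlgebra (F : Set (Set (ℝ × ℝ))) : Prop where
  compl_mem : ∀ S ∈ F, Sᶜ ∈ F
  empty_mem : ∅ ∈ F
  union_mem : ∀ S ∈ F, ∀ T ∈ F, S ∪ T ∈ F
  proj1_mem : ∀ S ∈ F, proj1 S ∈ F
  proj2_mem : ∀ S ∈ F, proj2 S ∈ F
  box_mem : ∀ A ∈ F, ∀ B ∈ F, A ⊆ axisX → B ⊆ axisY → box A B ∈ F

/-- the smallest projective algebra that contains all members of `G` -/
def generated (G : Set (Set (ℝ × ℝ))) : Set (Set (ℝ × ℝ)) :=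
  ⋂₀ {F | IsProjectiveAlgebra F ∧ G ⊆ F}

/-- `F` and `G` are isomorphic: there is a bijection from `F` onto `G` that commutes with
complement, union, both projections and the product `⊗`. -/
def Isomorphic (F G : Set (Set (ℝ × ℝ))) : Prop :=
  ∃ φ : Set (ℝ × ℝ) → Set (ℝ × ℝ), Set.BijOn φ F G ∧
    (∀ S ∈ F, φ Sᶜ = (φ S)ᶜ) ∧
    (∀ S ∈ F, ∀ T ∈ F, φ (S ∪ T) = φ S ∪ φ T) ∧
    (∀ S ∈ F, φ (proj1 S) = proj1 (φ S)) ∧
    (∀ S ∈ F, φ (proj2 S) = proj2 (φ S)) ∧
    (∀ A ∈ F, ∀ B ∈ F, A ⊆ axisX → B ⊆ axisY → φ (box A B) = box (φ A) (φ B))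

/-- `F` is the projective algebra generated by some `k` subsets of the plane. -/
def GeneratedBy (k : ℕ) (F : Set (Set (ℝ × ℝ))) : Prop :=
  ∃ S : Fin k → Set (ℝ × ℝ), F = generated (Set.range S)

/-- `F` is a projective algebra that is generated by some `k` subsets of the plane but not by
fewer than `k` subsets. -/
def MinGeneratedBy (k : ℕ) (F : Set (Set (ℝ × ℝ))) : Prop :=
  GeneratedBy k F ∧ ∀ j : ℕ, j < k → ¬ GeneratedBy j F

/-- The number of isomorphism classes of families `F` with the property `P`: the cardinality of the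
set of all classes `{G | P G and G is isomorphic to F}`. -/
noncomputable def numberOfClasses (P : Set (Set (ℝ × ℝ)) → Prop) : Cardinal :=
  Cardinal.mk {C : Set (Set (Set (ℝ × ℝ))) // ∃ F, P F ∧ C = {G | P G ∧ Isomorphic F G}}

/-! ## Generation -/

theorem isProjectiveAlgebra_generated (G : Set (Set (ℝ × ℝ))) :
    IsProjectiveAlgebra (generated G) where
  compl_mem S hS F hF := hF.1.compl_mem S (hS F hF)
  empty_mem _ hF := hF.1.empty_mem
  union_mem S hS T hT F hF := hF.1.union_mem S (hS F hF) T (hT F hF)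
  proj1_mem S hS F hF := hF.1.proj1_mem S (hS F hF)
  proj2_mem S hS F hF := hF.1.proj2_mem S (hS F hF)
  box_mem A hA B hB h1 h2 F hF := hF.1.box_mem A (hA F hF) B (hB F hF) h1 h2

theorem subset_generated (G : Set (Set (ℝ × ℝ))) : G ⊆ generated G :=
  fun _ hS _ hF => hF.2 hS

theorem generated_subset {G F : Set (Set (ℝ × ℝ))} (hF : IsProjectiveAlgebra F) (h : G ⊆ F) :
    generated G ⊆ F := fun _ hS => hS F ⟨hF, h⟩

namespace IsProjectiveAlgebra

variable {F : Set (Set (ℝ × ℝ))} (hF : IsProjectiveAlgebra F)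
include hF

theorem univ_mem : Set.univ ∈ F := by
  have := hF.compl_mem _ hF.empty_mem
  rwa [Set.compl_empty] at this

theorem inter_mem {S T : Set (ℝ × ℝ)} (hS : S ∈ F) (hT : T ∈ F) : S ∩ T ∈ F := by
  have := hF.compl_mem _ (hF.union_mem _ (hF.compl_mem _ hS) _ (hF.compl_mem _ hT))
  rwa [Set.compl_union, compl_compl, compl_compl] at this

theorem axisX_mem : axisX ∈ F := by
  have h := hF.proj1_mem _ hF.univ_mem
  have : proj1 Set.univ = axisX := by
    ext q; simp [proj1, axisX]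
  rwa [this] at h

theorem axisY_mem : axisY ∈ F := by
  have h := hF.proj2_mem _ hF.univ_mem
  have : proj2 Set.univ = axisY := by
    ext q; simp [proj2, axisY]
  rwa [this] at h

omit hF in
theorem box_eq (A B : Set (ℝ × ℝ)) : box A B = box (A ∩ axisX) (B ∩ axisY) := by
  ext q; simp [box, axisX, axisY]

theorem box_mem' {A B : Set (ℝ × ℝ)} (hA : A ∈ F) (hB : B ∈ F) : box A B ∈ F := by
  rw [box_eq]
  exact hF.box_mem _ (hF.inter_mem hA hF.axisX_mem) _ (hF.inter_mem hB hF.axisY_mem)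
    Set.inter_subset_right Set.inter_subset_right

end IsProjectiveAlgebra

/-! ## Terms -/

/-- terms of projective algebras in the variables `var i`, `i : Fin k` -/
inductive Term (k : ℕ) : Type
  | var : Fin k → Term k
  | empty : Term k
  | compl : Term k → Term k
  | union : Term k → Term k → Term k
  | p1 : Term k → Term k
  | p2 : Term k → Term k
  | box : Term k → Term k → Term k

namespace Term

variable {k : ℕ}

/-- the value of a term -/
def eval (S : Fin k → Set (ℝ × ℝ)) : Term k → Set (ℝ × ℝ)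
  | var i => S i
  | empty => ∅
  | compl t => (eval S t)ᶜ
  | union t u => eval S t ∪ eval S u
  | p1 t => proj1 (eval S t)
  | p2 t => proj2 (eval S t)
  | box t u => ExactCount.box (eval S t) (eval S u)

/-- an injective code -/
def code : Term k → List ℕ
  | var i => [0, i]
  | empty => [1]
  | compl t => 2 :: code t
  | union t u => 3 :: (code t).length :: (code t ++ code u)
  | p1 t => 4 :: code t
  | p2 t => 5 :: code t
  | box t u => 6 :: (code t).length :: (code t ++ code u)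

theorem code_injective : Function.Injective (code : Term k → List ℕ) := by
  intro t
  induction t with
  | var i => intro u h; cases u <;> simp_all [code, Fin.ext_iff]
  | empty => intro u h; cases u <;> simp_all [code]
  | compl t ih => intro u h; cases u <;> simp only [code, List.cons.injEq, reduceCtorEq, false_and] at h <;> first | (exfalso; omega) | (rw [ih h.2])
  | union t u iht ihu =>
    intro v h
    cases v <;> simp only [code, List.cons.injEq, reduceCtorEq, false_and, and_false] at h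
    all_goals first | (exfalso; omega) | skip
    · obtain ⟨-, h1, h2⟩ := h
      obtain ⟨h3, h4⟩ := List.append_inj h2 h1
      rw [iht h3, ihu h4]
  | p1 t ih => intro u h; cases u <;> simp only [code, List.cons.injEq, reduceCtorEq, false_and] at h <;> first | (exfalso; omega) | (rw [ih h.2])
  | p2 t ih => intro u h; cases u <;> simp only [code, List.cons.injEq, reduceCtorEq, false_and] at h <;> first | (exfalso; omega) | (rw [ih h.2])
  | box t u iht ihu =>
    intro v h
    cases v <;> simp only [code, List.cons.injEq, reduceCtorEq, false_and, and_false] at h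
    all_goals first | (exfalso; omega) | skip
    · obtain ⟨-, h1, h2⟩ := h
      obtain ⟨h3, h4⟩ := List.append_inj h2 h1
      rw [iht h3, ihu h4]

instance : Countable (Term k) := code_injective.countable

theorem eval_mem {F : Set (Set (ℝ × ℝ))} (hF : IsProjectiveAlgebra F) {S : Fin k → Set (ℝ × ℝ)}
    (hS : ∀ i, S i ∈ F) (t : Term k) : t.eval S ∈ F := by
  induction t with
  | var i => exact hS i
  | empty => exact hF.empty_mem
  | compl t ih => exact hF.compl_mem _ ih
  | union t u iht ihu => exact hF.union_mem _ iht _ ihu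
  | p1 t ih => exact hF.proj1_mem _ ih
  | p2 t ih => exact hF.proj2_mem _ ih
  | box t u iht ihu => exact hF.box_mem' iht ihu

theorem generated_eq (S : Fin k → Set (ℝ × ℝ)) :
    generated (Set.range S) = Set.range (fun t : Term k => t.eval S) := by
  apply Set.Subset.antisymm
  · apply generated_subset
    · constructor
      · rintro _ ⟨t, rfl⟩; exact ⟨compl t, rfl⟩
      · exact ⟨empty, rfl⟩
      · rintro _ ⟨t, rfl⟩ _ ⟨u, rfl⟩; exact ⟨union t u, rfl⟩
      · rintro _ ⟨t, rfl⟩; exact ⟨p1 t, rfl⟩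
      · rintro _ ⟨t, rfl⟩; exact ⟨p2 t, rfl⟩
      · rintro _ ⟨t, rfl⟩ _ ⟨u, rfl⟩ _ _; exact ⟨box t u, rfl⟩
    · rintro _ ⟨i, rfl⟩; exact ⟨var i, rfl⟩
  · rintro _ ⟨t, rfl⟩
    exact eval_mem (isProjectiveAlgebra_generated _)
      (fun i => subset_generated _ (Set.mem_range_self i)) t

end Term

theorem countable_generated {k : ℕ} (S : Fin k → Set (ℝ × ℝ)) :
    (generated (Set.range S)).Countable := by
  rw [Term.generated_eq]; exact Set.countable_range _

/-! ## Isomorphisms -/

theorem Isomorphic.refl (F : Set (Set (ℝ × ℝ))) : Isomorphic F F :=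
  ⟨id, Set.bijOn_id F, by simp, by simp, by simp, by simp, by simp⟩

theorem Isomorphic.of_eval_eq {k : ℕ} {S T : Fin k → Set (ℝ × ℝ)}
    (h : ∀ t u : Term k, t.eval S = u.eval S ↔ t.eval T = u.eval T) :
    Isomorphic (generated (Set.range S)) (generated (Set.range T)) := by
  classical
  simp only [Term.generated_eq]
  have hex : ∀ A : Set (ℝ × ℝ), A ∈ Set.range (fun t : Term k => t.eval S) →
      ∃ t : Term k, t.eval S = A := fun A hA => hA
  let φ : Set (ℝ × ℝ) → Set (ℝ × ℝ) := fun A =>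
    if hA : ∃ t : Term k, t.eval S = A then (Classical.choose hA).eval T else ∅
  have hφ : ∀ t : Term k, φ (t.eval S) = t.eval T := by
    intro t
    have hA : ∃ u : Term k, u.eval S = t.eval S := ⟨t, rfl⟩
    have : φ (t.eval S) = (Classical.choose hA).eval T := by
      simp only [φ]; rw [dif_pos hA]
    rw [this]
    exact (h _ _).1 (Classical.choose_spec hA)
  refine ⟨φ, ⟨?_, ?_, ?_⟩, ?_, ?_, ?_, ?_, ?_⟩
  · rintro _ ⟨t, rfl⟩; exact ⟨t, (hφ t).symm⟩
  · rintro _ ⟨t, rfl⟩ _ ⟨u, rfl⟩ htu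
    simp only [hφ] at htu
    exact (h _ _).2 htu
  · rintro _ ⟨t, rfl⟩; exact ⟨t.eval S, ⟨t, rfl⟩, hφ t⟩
  · rintro _ ⟨t, rfl⟩
    have := hφ t.compl
    simp only [Term.eval] at this
    simp only [hφ, this]
  · rintro _ ⟨t, rfl⟩ _ ⟨u, rfl⟩
    have := hφ (t.union u)
    simp only [Term.eval] at this
    simp only [hφ, this]
  · rintro _ ⟨t, rfl⟩
    have := hφ t.p1
    simp only [Term.eval] at this
    simp only [hφ, this]
  · rintro _ ⟨t, rfl⟩
    have := hφ t.p2
    simp only [Term.eval] at this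
    simp only [hφ, this]
  · rintro _ ⟨t, rfl⟩ _ ⟨u, rfl⟩ _ _
    have := hφ (t.box u)
    simp only [Term.eval] at this
    simp only [hφ, this]

/-- isomorphisms respect all terms -/
theorem iso_eval {F : Set (Set (ℝ × ℝ))} (hF : IsProjectiveAlgebra F)
    {φ : Set (ℝ × ℝ) → Set (ℝ × ℝ)}
    (h1 : ∀ S ∈ F, φ Sᶜ = (φ S)ᶜ)
    (h2 : ∀ S ∈ F, ∀ T ∈ F, φ (S ∪ T) = φ S ∪ φ T)
    (h3 : ∀ S ∈ F, φ (proj1 S) = proj1 (φ S))
    (h4 : ∀ S ∈ F, φ (proj2 S) = proj2 (φ S))
    (h5 : ∀ A ∈ F, ∀ B ∈ F, A ⊆ axisX → B ⊆ axisY → φ (box A B) = box (φ A) (φ B))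
    {k : ℕ} {S : Fin k → Set (ℝ × ℝ)} (hS : ∀ i, S i ∈ F) (t : Term k) :
    φ (t.eval S) = t.eval (fun i => φ (S i)) := by
  have hinter : ∀ S ∈ F, ∀ T ∈ F, φ (S ∩ T) = φ S ∩ φ T := by
    intro S hS T hT
    have e : S ∩ T = (Sᶜ ∪ Tᶜ)ᶜ := by rw [Set.compl_union, compl_compl, compl_compl]
    rw [e, h1 _ (hF.union_mem _ (hF.compl_mem _ hS) _ (hF.compl_mem _ hT)),
      h2 _ (hF.compl_mem _ hS) _ (hF.compl_mem _ hT), h1 _ hS, h1 _ hT, Set.compl_union,
      compl_compl, compl_compl]
  have huniv : φ Set.univ = Set.univ := by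
    have e : (Set.univ : Set (ℝ × ℝ)) = ∅ ∪ (∅ : Set (ℝ × ℝ))ᶜ := by simp
    rw [e, h2 _ hF.empty_mem _ (hF.compl_mem _ hF.empty_mem), h1 _ hF.empty_mem]
    simp
  have hempty : φ ∅ = ∅ := by
    have e : (∅ : Set (ℝ × ℝ)) = (Set.univ : Set (ℝ × ℝ))ᶜ := by simp
    rw [e, h1 _ hF.univ_mem, huniv]
  have hX : φ axisX = axisX := by
    have e : axisX = proj1 Set.univ := by ext q; simp [proj1, axisX]
    rw [e, h3 _ hF.univ_mem, huniv]
  have hY : φ axisY = axisY := by
    have e : axisY = proj2 Set.univ := by ext q; simp [proj2, axisY]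
    rw [e, h4 _ hF.univ_mem, huniv]
  induction t with
  | var i => rfl
  | empty => exact hempty
  | compl t ih => simp only [Term.eval]; rw [h1 _ (t.eval_mem hF hS), ih]
  | union t u iht ihu =>
    simp only [Term.eval]
    rw [h2 _ (t.eval_mem hF hS) _ (u.eval_mem hF hS), iht, ihu]
  | p1 t ih => simp only [Term.eval]; rw [h3 _ (t.eval_mem hF hS), ih]
  | p2 t ih => simp only [Term.eval]; rw [h4 _ (t.eval_mem hF hS), ih]
  | box t u iht ihu =>
    simp only [Term.eval]
    have ht := t.eval_mem hF hS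
    have hu := u.eval_mem hF hS
    rw [IsProjectiveAlgebra.box_eq,
      h5 _ (hF.inter_mem ht hF.axisX_mem) _ (hF.inter_mem hu hF.axisY_mem)
        Set.inter_subset_right Set.inter_subset_right,
      hinter _ ht _ hF.axisX_mem, hinter _ hu _ hF.axisY_mem, iht, ihu, hX, hY,
      ← IsProjectiveAlgebra.box_eq]


section

variable {F G H : Set (Set (ℝ × ℝ))}

theorem isProjectiveAlgebra_of_bijOn (hF : IsProjectiveAlgebra F) (h : Isomorphic F G) :
    IsProjectiveAlgebra G := by
  obtain ⟨φ, hb, h1, h2, h3, h4, h5⟩ := h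
  have hiso := fun (k : ℕ) (S : Fin k → Set (ℝ × ℝ)) (hS : ∀ i, S i ∈ F) (t : Term k) =>
    iso_eval hF h1 h2 h3 h4 h5 hS t
  have hmaps : ∀ (k : ℕ) (S : Fin k → Set (ℝ × ℝ)) (_ : ∀ i, S i ∈ F) (t : Term k),
      t.eval (fun i => φ (S i)) ∈ G := by
    intro k S hS t
    rw [← hiso k S hS t]
    exact hb.mapsTo (t.eval_mem hF hS)
  have surj := hb.surjOn
  constructor
  · intro T hT
    obtain ⟨S, hS, rfl⟩ := surj hT
    exact hmaps 1 (fun _ => S) (fun _ => hS) (.compl (.var 0))
  · exact hmaps 0 (fun _ => ∅) (fun i => i.elim0) .empty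
  · intro T hT T' hT'
    obtain ⟨S, hS, rfl⟩ := surj hT
    obtain ⟨S', hS', rfl⟩ := surj hT'
    rw [← h2 _ hS _ hS']
    exact hb.mapsTo (hF.union_mem _ hS _ hS')
  · intro T hT
    obtain ⟨S, hS, rfl⟩ := surj hT
    exact hmaps 1 (fun _ => S) (fun _ => hS) (.p1 (.var 0))
  · intro T hT
    obtain ⟨S, hS, rfl⟩ := surj hT
    exact hmaps 1 (fun _ => S) (fun _ => hS) (.p2 (.var 0))
  · intro T hT T' hT' _ _
    obtain ⟨S, hS, rfl⟩ := surj hT
    obtain ⟨S', hS', rfl⟩ := surj hT'
    have := hmaps 2 ![S, S'] (by intro i; fin_cases i <;> simp [hS, hS']) (.box (.var 0) (.var 1))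
    simpa [Term.eval] using this

/-- an isomorphism respects the relation of being contained in an axis -/
theorem iso_axis (hF : IsProjectiveAlgebra F) {φ : Set (ℝ × ℝ) → Set (ℝ × ℝ)}
    (hb : Set.BijOn φ F G)
    (h1 : ∀ S ∈ F, φ Sᶜ = (φ S)ᶜ)
    (h2 : ∀ S ∈ F, ∀ T ∈ F, φ (S ∪ T) = φ S ∪ φ T)
    (h3 : ∀ S ∈ F, φ (proj1 S) = proj1 (φ S))
    (h4 : ∀ S ∈ F, φ (proj2 S) = proj2 (φ S))
    (h5 : ∀ A ∈ F, ∀ B ∈ F, A ⊆ axisX → B ⊆ axisY → φ (box A B) = box (φ A) (φ B)) :
    (∀ A ∈ F, A ⊆ axisX ↔ φ A ⊆ axisX) ∧ (∀ A ∈ F, A ⊆ axisY ↔ φ A ⊆ axisY) := by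
  have hX : φ axisX = axisX := by
    have := iso_eval hF h1 h2 h3 h4 h5 (k := 0) (S := fun _ => ∅) (fun i => i.elim0)
      (.p1 (.compl .empty))
    have e : axisX = proj1 (∅ : Set (ℝ × ℝ))ᶜ := by ext q; simp [proj1, axisX]
    simp only [Term.eval, ← e] at this
    exact this
  have hY : φ axisY = axisY := by
    have := iso_eval hF h1 h2 h3 h4 h5 (k := 0) (S := fun _ => ∅) (fun i => i.elim0)
      (.p2 (.compl .empty))
    have e : axisY = proj2 (∅ : Set (ℝ × ℝ))ᶜ := by ext q; simp [proj2, axisY]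
    simp only [Term.eval, ← e] at this
    exact this
  constructor
  · intro A hA
    rw [← Set.union_eq_right, ← Set.union_eq_right]
    constructor
    · intro h
      rw [← hX, ← h2 _ hA _ hF.axisX_mem, h]
    · intro h
      apply hb.injOn (hF.union_mem _ hA _ hF.axisX_mem) hF.axisX_mem
      rw [h2 _ hA _ hF.axisX_mem, hX, h]
  · intro A hA
    rw [← Set.union_eq_right, ← Set.union_eq_right]
    constructor
    · intro h
      rw [← hY, ← h2 _ hA _ hF.axisY_mem, h]
    · intro h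
      apply hb.injOn (hF.union_mem _ hA _ hF.axisY_mem) hF.axisY_mem
      rw [h2 _ hA _ hF.axisY_mem, hY, h]

theorem Isomorphic.symm' (hF : IsProjectiveAlgebra F) (h : Isomorphic F G) : Isomorphic G F := by
  classical
  obtain ⟨φ, hb, h1, h2, h3, h4, h5⟩ := h
  obtain ⟨hX, hY⟩ := iso_axis hF hb h1 h2 h3 h4 h5
  have hinv := hb.invOn_invFunOn
  set ψ := Function.invFunOn φ F with hψ
  have hψφ : ∀ S ∈ F, ψ (φ S) = S := hinv.1
  have hb' : Set.BijOn ψ G F := hb.symm hinv.symm
  have surj := hb.surjOn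
  refine ⟨ψ, hb', ?_, ?_, ?_, ?_, ?_⟩
  · intro T hT
    obtain ⟨S, hS, rfl⟩ := surj hT
    rw [← h1 _ hS, hψφ _ hS, hψφ _ (hF.compl_mem _ hS)]
  · intro T hT T' hT'
    obtain ⟨S, hS, rfl⟩ := surj hT
    obtain ⟨S', hS', rfl⟩ := surj hT'
    rw [← h2 _ hS _ hS', hψφ _ hS, hψφ _ hS', hψφ _ (hF.union_mem _ hS _ hS')]
  · intro T hT
    obtain ⟨S, hS, rfl⟩ := surj hT
    rw [← h3 _ hS, hψφ _ hS, hψφ _ (hF.proj1_mem _ hS)]
  · intro T hT
    obtain ⟨S, hS, rfl⟩ := surj hT
    rw [← h4 _ hS, hψφ _ hS, hψφ _ (hF.proj2_mem _ hS)]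
  · intro T hT T' hT' ha hb''
    obtain ⟨S, hS, rfl⟩ := surj hT
    obtain ⟨S', hS', rfl⟩ := surj hT'
    have ha' := (hX S hS).2 ha
    have hb3 := (hY S' hS').2 hb''
    rw [← h5 _ hS _ hS' ha' hb3, hψφ _ hS, hψφ _ hS', hψφ _ (hF.box_mem _ hS _ hS' ha' hb3)]

theorem Isomorphic.trans' (hF : IsProjectiveAlgebra F) (h : Isomorphic F G)
    (h' : Isomorphic G H) : Isomorphic F H := by
  obtain ⟨φ, hb, h1, h2, h3, h4, h5⟩ := h
  obtain ⟨hX, hY⟩ := iso_axis hF hb h1 h2 h3 h4 h5
  obtain ⟨ψ, kb, k1, k2, k3, k4, k5⟩ := h'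
  have hm := hb.mapsTo
  refine ⟨ψ ∘ φ, kb.comp hb, ?_, ?_, ?_, ?_, ?_⟩
  · intro S hS
    simp only [Function.comp]
    rw [h1 _ hS, k1 _ (hm hS)]
  · intro S hS T hT
    simp only [Function.comp]
    rw [h2 _ hS _ hT, k2 _ (hm hS) _ (hm hT)]
  · intro S hS
    simp only [Function.comp]
    rw [h3 _ hS, k3 _ (hm hS)]
  · intro S hS
    simp only [Function.comp]
    rw [h4 _ hS, k4 _ (hm hS)]
  · intro S hS T hT ha hb'
    simp only [Function.comp]
    rw [h5 _ hS _ hT ha hb', k5 _ (hm hS) _ (hm hT) ((hX _ hS).1 ha) ((hY _ hT).1 hb')]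

end

/-! ## The upper bound -/

theorem upper {k : ℕ} {P : Set (Set (ℝ × ℝ)) → Prop} (hP : ∀ F, P F → GeneratedBy k F) :
    numberOfClasses P ≤ Cardinal.continuum := by
  classical
  have key : ∀ C : {C : Set (Set (Set (ℝ × ℝ))) // ∃ F, P F ∧ C = {G | P G ∧ Isomorphic F G}},
      ∃ S : Fin k → Set (ℝ × ℝ), C.1 = {G | P G ∧ Isomorphic (generated (Set.range S)) G} := by
    rintro ⟨C, F, hF, rfl⟩
    obtain ⟨S, rfl⟩ := hP F hF
    exact ⟨S, rfl⟩
  choose S hS using key
  have hinj : Function.Injective (fun C => {p : Term k × Term k | p.1.eval (S C) = p.2.eval (S C)}) := by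
    intro C D h
    have h' : ∀ t u : Term k, t.eval (S C) = u.eval (S C) ↔ t.eval (S D) = u.eval (S D) := by
      intro t u
      have := congrArg (fun A : Set (Term k × Term k) => (t, u) ∈ A) h
      simpa using this
    have i1 := Isomorphic.of_eval_eq h'
    have i2 := Isomorphic.symm' (isProjectiveAlgebra_generated _) i1
    apply Subtype.ext
    rw [hS C, hS D]
    ext G
    constructor
    · rintro ⟨hG, hi⟩
      exact ⟨hG, Isomorphic.trans' (isProjectiveAlgebra_generated _) i2 hi⟩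
    · rintro ⟨hG, hi⟩
      exact ⟨hG, Isomorphic.trans' (isProjectiveAlgebra_generated _) i1 hi⟩
  refine (Cardinal.mk_le_of_injective hinj).trans ?_
  rw [Cardinal.mk_set, Cardinal.continuum]
  exact Cardinal.power_le_power_left two_ne_zero (Cardinal.mk_le_aleph0)

/-! ## The coding -/

/-- the infinite path and the code of `r` -/
def path (r : Set ℕ) : Set (ℝ × ℝ) :=
  {q | ∃ n : ℕ, q = ((n : ℝ), (n : ℝ) + 1) ∨ q = ((n : ℝ) + 1, (n : ℝ) + 1) ∨
    (n ∈ r ∧ q = ((n : ℝ), 0))}

/-- the number attached to a point of the third quadrant -/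
noncomputable def num (k : ℕ) (q : ℝ × ℝ) : ℕ := (⌊q.1 + q.2⌋ % (2 ^ k : ℤ)).toNat

/-- independent sets in the third quadrant -/
def quad (k : ℕ) (i : ℕ) : Set (ℝ × ℝ) := {q | q.1 < 0 ∧ q.2 < 0 ∧ (num k q).testBit i = true}

/-- the generators -/
def gen (k : ℕ) (r : Set ℕ) (i : Fin k) : Set (ℝ × ℝ) :=
  {q | ((i : ℕ) = 0 ∧ q ∈ path r) ∨ q ∈ quad k i}

/-- intersection as a term -/
def tInter {k : ℕ} (t u : Term k) : Term k := .compl (.union (.compl t) (.compl u))

theorem eval_tInter {k : ℕ} (S : Fin k → Set (ℝ × ℝ)) (t u : Term k) :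
    (tInter t u).eval S = t.eval S ∩ u.eval S := by
  simp [tInter, Term.eval]

/-- the horizontal axis as a term -/
def tX : Term 1 := .p1 (.compl .empty)
/-- the vertical axis as a term -/
def tY : Term 1 := .p2 (.compl .empty)

theorem eval_tX (S : Fin 1 → Set (ℝ × ℝ)) : tX.eval S = axisX := by
  ext q; simp [tX, Term.eval, proj1, axisX]

theorem eval_tY (S : Fin 1 → Set (ℝ × ℝ)) : tY.eval S = axisY := by
  ext q; simp [tY, Term.eval, proj2, axisY]

/-- terms for the vertices of the path -/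
def vert : ℕ → Term 1 × Term 1
  | 0 => (tInter tX tY, tInter tX tY)
  | n + 1 =>
    let y := tInter (.p2 (tInter (.var 0) (.box (vert n).1 tY)))
      (.compl (.union (vert n).2 (tInter tX tY)))
    (tInter (.p1 (tInter (.var 0) (.box tX y))) (.compl (vert n).1), y)

theorem eval_vert (k : ℕ) (hk : 0 < k) (r : Set ℕ) (n : ℕ) :
    (vert n).1.eval (fun _ => gen k r ⟨0, hk⟩) = {((n : ℝ), (0 : ℝ))} ∧
    (vert n).2.eval (fun _ => gen k r ⟨0, hk⟩) = {((0 : ℝ), (n : ℝ))} := by
  induction n with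
  | zero =>
    have : ∀ q : ℝ × ℝ, q.2 = 0 ∧ q.1 = 0 ↔ q = (0, 0) := by
      rintro ⟨x, y⟩; simp [and_comm]
    constructor <;>
    · simp only [vert, eval_tInter, eval_tX, eval_tY]
      ext q
      simp only [axisX, axisY, Set.mem_inter_iff, Set.mem_ofPred_eq, this]
      simp
  | succ n ih =>
    obtain ⟨ih1, ih2⟩ := ih
    have hn0 : (0 : ℝ) ≤ n := Nat.cast_nonneg n
    have hy : (vert (n + 1)).2.eval (fun _ => gen k r ⟨0, hk⟩) = {((0 : ℝ), ((n + 1 : ℕ) : ℝ))} := by
      simp only [vert, eval_tInter, eval_tX, eval_tY, Term.eval, ih1, ih2]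
      ext ⟨x, y⟩
      simp only [proj2, box, gen, path, quad, axisX, axisY, Set.mem_inter_iff, Set.mem_ofPred_eq,
        Set.mem_compl_iff, Set.mem_union, Set.mem_singleton_iff, Prod.mk.injEq, not_or, and_true,
        true_and, Nat.cast_add, Nat.cast_one]
      constructor
      · rintro ⟨⟨hx, z, hz, rfl⟩, h2, h3⟩
        refine ⟨hx, ?_⟩
        rcases hz with ⟨m, hm | hm | hm⟩ | hm
        · have : m = n := by exact_mod_cast hm.1.symm
          subst this; exact hm.2
        · exfalso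
          have : m + 1 = n := by exact_mod_cast hm.1.symm
          apply h2
          refine ⟨hx, ?_⟩
          rw [hm.2, ← this]; push_cast; ring
        · exfalso
          apply h3
          exact ⟨hm.2.2, hx⟩
        · exfalso
          linarith [hm.1]
      · rintro ⟨rfl, rfl⟩
        refine ⟨⟨rfl, n, ?_, rfl⟩, ?_, ?_⟩
        · left; exact ⟨n, Or.inl ⟨rfl, rfl⟩⟩
        · rintro ⟨-, h⟩; linarith
        · rintro ⟨h, -⟩; linarith
    refine ⟨?_, hy⟩
    have hy' : (vert (n + 1)).1 = tInter (.p1 (tInter (.var 0) (.box tX (vert (n + 1)).2)))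
      (.compl (vert n).1) := rfl
    rw [hy']
    simp only [eval_tInter, eval_tX, Term.eval, ih1, hy]
    ext ⟨x, y⟩
    simp only [proj1, box, gen, path, quad, axisX, Set.mem_inter_iff, Set.mem_ofPred_eq,
      Set.mem_compl_iff, Set.mem_singleton_iff, Prod.mk.injEq, true_and,
      Nat.cast_add, Nat.cast_one]
    constructor
    · rintro ⟨⟨hx, z, hz, rfl⟩, h2⟩
      refine ⟨?_, hx⟩
      rcases hz with ⟨m, hm | hm | hm⟩ | hm
      · exfalso
        have : m = n := by
          have := hm.2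
          have h' : (m : ℝ) = n := by linarith
          exact_mod_cast h'
        subst this
        exact h2 ⟨hm.1, hx⟩
      · have : (m : ℝ) = n := by linarith [hm.2]
        rw [hm.1, this]
      · exfalso
        linarith [hm.2.2]
      · exfalso
        linarith [hm.2.1]
    · rintro ⟨rfl, rfl⟩
      refine ⟨⟨rfl, (n : ℝ) + 1, ?_, rfl⟩, ?_⟩
      · left; exact ⟨n, Or.inr (Or.inl ⟨rfl, rfl⟩)⟩
      · rintro ⟨h, -⟩; linarith

/-- the set of natural numbers coded by a plane set -/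
def decode (T : Set (ℝ × ℝ)) : Set ℕ :=
  {n | (tInter (.var 0) (vert n).1).eval (fun _ => T) ≠ ∅}

theorem decode_gen (k : ℕ) (hk : 0 < k) (r : Set ℕ) : decode (gen k r ⟨0, hk⟩) = r := by
  ext n
  simp only [decode, Set.mem_ofPred_eq, eval_tInter, (eval_vert k hk r n).1, Term.eval]
  rw [← Set.nonempty_iff_ne_empty, Set.inter_singleton_nonempty]
  have hn0 : (0 : ℝ) ≤ n := Nat.cast_nonneg n
  simp only [gen, path, quad, Set.mem_ofPred_eq, Prod.mk.injEq, true_and, and_true]
  constructor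
  · rintro (⟨m, hm | hm | hm⟩ | hm)
    · exfalso
      have : (0 : ℝ) ≤ m := Nat.cast_nonneg m
      linarith [hm.2]
    · exfalso
      have : (0 : ℝ) ≤ m := Nat.cast_nonneg m
      linarith [hm.2]
    · have : n = m := by exact_mod_cast hm.2
      rw [this]; exact hm.1
    · exfalso
      linarith [hm.1]
  · intro h
    left; exact ⟨n, Or.inr (Or.inr ⟨h, rfl⟩)⟩

theorem lower {k : ℕ} (hk : 0 < k) {P : Set (Set (ℝ × ℝ)) → Prop}
    (hP : ∀ r : Set ℕ, P (generated (Set.range (gen k r)))) :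
    Cardinal.continuum ≤ numberOfClasses P := by
  classical
  let A : Set ℕ → Set (Set (ℝ × ℝ)) := fun r => generated (Set.range (gen k r))
  let cl : Set ℕ → {C : Set (Set (Set (ℝ × ℝ))) // ∃ F, P F ∧ C = {G | P G ∧ Isomorphic F G}} :=
    fun r => ⟨{G | P G ∧ Isomorphic (A r) G}, A r, hP r, rfl⟩
  have hfib : ∀ C, (cl ⁻¹' {C}).Countable := by
    intro C
    by_cases hC : ∃ s, cl s = C
    · obtain ⟨s, rfl⟩ := hC
      apply ((countable_generated (gen k s)).image decode).mono
      intro r hr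
      have hr' : cl r = cl s := hr
      have h1 : A s ∈ (cl r).1 := by
        rw [hr']; exact ⟨hP s, Isomorphic.refl _⟩
      obtain ⟨φ, hb, i1, i2, i3, i4, i5⟩ := h1.2
      have hF := isProjectiveAlgebra_generated (Set.range (gen k r))
      have hmem : gen k r ⟨0, hk⟩ ∈ A r := subset_generated _ (Set.mem_range_self _)
      refine ⟨φ (gen k r ⟨0, hk⟩), hb.mapsTo hmem, ?_⟩
      refine Eq.trans ?_ (decode_gen k hk r)
      ext n
      simp only [decode, Set.mem_ofPred_eq]
      rw [← iso_eval hF i1 i2 i3 i4 i5 (k := 1) (S := fun _ => gen k r ⟨0, hk⟩) (fun _ => hmem)]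
      have he : φ ∅ = ∅ :=
        iso_eval hF i1 i2 i3 i4 i5 (k := 1) (S := fun _ => gen k r ⟨0, hk⟩) (fun _ => hmem) .empty
      rw [not_iff_not]
      constructor
      · intro h
        apply hb.injOn (Term.eval_mem hF (fun _ => hmem) _) hF.empty_mem
        rw [h, he]
      · intro h
        rw [h, he]
    · have : cl ⁻¹' {C} = ∅ := by
        ext s
        simp only [Set.mem_preimage, Set.mem_singleton_iff, Set.mem_empty_iff_false, iff_false]
        exact fun h => hC ⟨s, h⟩
      rw [this]; exact Set.countable_empty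
  have h1 : Cardinal.mk (Set ℕ) ≤ numberOfClasses P * Cardinal.aleph0 := by
    rw [← Cardinal.mk_congr (Equiv.sigmaFiberEquiv cl), Cardinal.mk_sigma]
    refine (Cardinal.sum_le_sum _ (fun _ => Cardinal.aleph0) ?_).trans ?_
    · intro C
      have := hfib C
      rw [← Cardinal.le_aleph0_iff_set_countable] at this
      exact this
    · rw [Cardinal.sum_const']
      exact le_rfl
  have h2 : Cardinal.mk (Set ℕ) = Cardinal.continuum := by
    rw [Cardinal.mk_set, Cardinal.mk_nat, Cardinal.continuum]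
  rw [h2] at h1
  by_contra hlt
  rw [not_le] at hlt
  have h3 : numberOfClasses P * Cardinal.aleph0 < Cardinal.continuum :=
    Cardinal.mul_lt_of_lt Cardinal.aleph0_le_continuum hlt Cardinal.aleph0_lt_continuum
  exact absurd h1 (not_le.2 h3)

/-! ## The number of generators -/

/-- sets that are, in the half planes with negative coordinates, saturated with respect to `c` -/
structure Sat {γ : Type} (k : ℕ) (c : ℕ → γ) (T : Set (ℝ × ℝ)) : Prop where
  left : ∀ x x' y : ℝ, x < 0 → x' < 0 → 0 ≤ y → (x, y) ∈ T → (x', y) ∈ T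
  down : ∀ x y y' : ℝ, 0 ≤ x → y < 0 → y' < 0 → (x, y) ∈ T → (x, y') ∈ T
  quad : ∀ x y x' y' : ℝ, x < 0 → y < 0 → x' < 0 → y' < 0 → c (num k (x, y)) = c (num k (x', y')) →
    (x, y) ∈ T → (x', y') ∈ T

theorem num_shift (k : ℕ) (x z x' : ℝ) : ∃ z' : ℝ, z' < 0 ∧ num k (x', z') = num k (x, z) := by
  obtain ⟨m, hm⟩ := exists_nat_gt (x + z - x')
  refine ⟨x + z - x' - ((m * 2 ^ k : ℕ) : ℝ), ?_, ?_⟩
  · have h1 : (m : ℝ) ≤ ((m * 2 ^ k : ℕ) : ℝ) := by
      have : m ≤ m * 2 ^ k := Nat.le_mul_of_pos_right m (by positivity)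
      exact_mod_cast this
    linarith
  · unfold num
    congr 1
    have e : x' + (x + z - x' - ((m * 2 ^ k : ℕ) : ℝ)) = (x + z) - ((m * 2 ^ k : ℕ) : ℝ) := by ring
    simp only
    rw [e, Int.floor_sub_natCast]
    push_cast
    exact Int.sub_mul_emod_self_right _ _ _

theorem num_shift' (k : ℕ) (x z z' : ℝ) : ∃ x' : ℝ, x' < 0 ∧ num k (x', z') = num k (x, z) := by
  obtain ⟨w, hw, h⟩ := num_shift k z x z'
  refine ⟨w, hw, ?_⟩
  unfold num at *
  simpa [add_comm] using h

theorem isProjectiveAlgebra_sat {γ : Type} (k : ℕ) (c : ℕ → γ) :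
    IsProjectiveAlgebra {T | Sat k c T} where
  compl_mem S hS := by
    constructor
    · intro x x' y hx hx' hy h h'
      exact h (hS.left x' x y hx' hx hy h')
    · intro x y y' hx hy hy' h h'
      exact h (hS.down x y' y hx hy' hy h')
    · intro x y x' y' hx hy hx' hy' hc h h'
      exact h (hS.quad x' y' x y hx' hy' hx hy hc.symm h')
  empty_mem := by
    constructor <;> simp
  union_mem S hS T hT := by
    constructor
    · intro x x' y hx hx' hy h
      exact h.imp (hS.left x x' y hx hx' hy) (hT.left x x' y hx hx' hy)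
    · intro x y y' hx hy hy' h
      exact h.imp (hS.down x y y' hx hy hy') (hT.down x y y' hx hy hy')
    · intro x y x' y' hx hy hx' hy' hc h
      exact h.imp (hS.quad x y x' y' hx hy hx' hy' hc) (hT.quad x y x' y' hx hy hx' hy' hc)
  proj1_mem S hS := by
    constructor
    · rintro x x' y hx hx' hy ⟨h0, z, hz⟩
      refine ⟨h0, ?_⟩
      rcases lt_or_ge z 0 with h | h
      · obtain ⟨z', hz', hn⟩ := num_shift k x z x'
        exact ⟨z', hS.quad x z x' z' hx h hx' hz' (by rw [hn]) hz⟩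
      · exact ⟨z, hS.left x x' z hx hx' h hz⟩
    · rintro x y y' hx hy hy' ⟨h0, _⟩
      exact absurd h0 hy.ne
    · rintro x y x' y' hx hy hx' hy' hc ⟨h0, _⟩
      exact absurd h0 hy.ne
  proj2_mem S hS := by
    constructor
    · rintro x x' y hx hx' hy ⟨h0, _⟩
      exact absurd h0 hx.ne
    · rintro x y y' hx hy hy' ⟨h0, z, hz⟩
      refine ⟨h0, ?_⟩
      rcases lt_or_ge z 0 with h | h
      · obtain ⟨z', hz', hn⟩ := num_shift' k z y y'
        exact ⟨z', hS.quad z y z' y' h hy hz' hy' (by rw [hn]) hz⟩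
      · exact ⟨z, hS.down z y y' h hy hy' hz⟩
    · rintro x y x' y' hx hy hx' hy' hc ⟨h0, _⟩
      exact absurd h0 hx.ne
  box_mem A hA B hB _ _ := by
    constructor
    · rintro x x' y hx hx' hy ⟨h1, h2⟩
      exact ⟨hA.left x x' 0 hx hx' le_rfl h1, h2⟩
    · rintro x y y' hx hy hy' ⟨h1, h2⟩
      exact ⟨h1, hB.down 0 y y' le_rfl hy hy' h2⟩
    · rintro x y x' y' hx hy hx' hy' hc ⟨h1, h2⟩
      exact ⟨hA.left x x' 0 hx hx' le_rfl h1, hB.down 0 y y' le_rfl hy hy' h2⟩

theorem path_nonneg {r : Set ℕ} {q : ℝ × ℝ} (h : q ∈ path r) : 0 ≤ q.1 ∧ 0 ≤ q.2 := by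
  obtain ⟨n, h | h | h⟩ := h
  · rw [h]; constructor <;> positivity
  · rw [h]; constructor <;> positivity
  · rw [h.2]; constructor
    · positivity
    · exact le_rfl

theorem sat_gen (k : ℕ) (r : Set ℕ) (i : Fin k) : Sat k id (gen k r i) := by
  constructor
  · rintro x x' y hx hx' hy (⟨_, h⟩ | h)
    · exact absurd (path_nonneg h).1 (not_le.2 hx)
    · exact absurd h.2.1 (not_lt.2 hy)
  · rintro x y y' hx hy hy' (⟨_, h⟩ | h)
    · exact absurd (path_nonneg h).2 (not_le.2 hy)
    · exact absurd h.1 (not_lt.2 hx)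
  · rintro x y x' y' hx hy hx' hy' hc (⟨_, h⟩ | h)
    · exact absurd (path_nonneg h).1 (not_le.2 hx)
    · right
      refine ⟨hx', hy', ?_⟩
      have := h.2.2
      simp only [id] at hc
      rwa [hc] at this

theorem exists_num (k : ℕ) (m : ℕ) (hm : m < 2 ^ k) :
    ∃ x y : ℝ, x < 0 ∧ y < 0 ∧ num k (x, y) = m := by
  obtain ⟨z, hz, h⟩ := num_shift k (-1) ((m : ℝ) + 1) (-1)
  refine ⟨-1, z, by norm_num, hz, ?_⟩
  rw [h]
  unfold num
  have e : ((-1 : ℝ), (m : ℝ) + 1).1 + ((-1 : ℝ), (m : ℝ) + 1).2 = (m : ℝ) := by simp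
  rw [e, Int.floor_natCast]
  have : ((m : ℤ) % (2 ^ k : ℤ)) = m := Int.emod_eq_of_lt (by positivity) (by exact_mod_cast hm)
  rw [this]; simp

theorem not_generatedBy (k : ℕ) (r : Set ℕ) (j : ℕ) (hj : j < k) :
    ¬ GeneratedBy j (generated (Set.range (gen k r))) := by
  classical
  rintro ⟨T, hT⟩
  have hsub : generated (Set.range (gen k r)) ⊆ {T | Sat k (id : ℕ → ℕ) T} := by
    apply generated_subset (isProjectiveAlgebra_sat k id)
    rintro _ ⟨i, rfl⟩
    exact sat_gen k r i
  have hTi : ∀ i, Sat k (id : ℕ → ℕ) (T i) := fun i =>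
    hsub (by rw [hT]; exact subset_generated _ (Set.mem_range_self i))
  let c : ℕ → (Fin j → Prop) := fun m i => ∃ x y : ℝ, x < 0 ∧ y < 0 ∧ num k (x, y) = m ∧ (x, y) ∈ T i
  have hTc : ∀ i, Sat k c (T i) := by
    intro i
    refine ⟨(hTi i).left, (hTi i).down, ?_⟩
    intro x y x' y' hx hy hx' hy' hc h
    have h1 : c (num k (x, y)) i := ⟨x, y, hx, hy, rfl, h⟩
    rw [hc] at h1
    obtain ⟨u, v, hu, hv, huv, hmem⟩ := h1
    exact (hTi i).quad u v x' y' hu hv hx' hy' huv hmem
  have hsub2 : generated (Set.range (gen k r)) ⊆ {T | Sat k c T} := by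
    rw [hT]
    apply generated_subset (isProjectiveAlgebra_sat k c)
    rintro _ ⟨i, rfl⟩
    exact hTc i
  have hgen : ∀ i, Sat k c (gen k r i) := fun i =>
    hsub2 (subset_generated _ (Set.mem_range_self i))
  have hinj : Function.Injective (fun m : Fin (2 ^ k) => c m) := by
    intro m m' h
    simp only at h
    obtain ⟨x, y, hx, hy, hxy⟩ := exists_num k m m.2
    obtain ⟨x', y', hx', hy', hxy'⟩ := exists_num k m' m'.2
    apply Fin.ext
    apply Nat.eq_of_testBit_eq
    intro i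
    by_cases hi : i < k
    · have key : ∀ (a b a' b' : ℝ) (n n' : ℕ), a < 0 → b < 0 → a' < 0 → b' < 0 → num k (a, b) = n →
          num k (a', b') = n' → c n = c n' → n.testBit i = true → n'.testBit i = true := by
        intro a b a' b' n n' ha hb ha' hb' hn hn' hc ht
        have h1 : (a, b) ∈ gen k r ⟨i, hi⟩ := Or.inr ⟨ha, hb, by rw [hn]; exact ht⟩
        have h2 := (hgen ⟨i, hi⟩).quad a b a' b' ha hb ha' hb' (by rw [hn, hn', hc]) h1
        rcases h2 with ⟨_, h2⟩ | h2
        · exact absurd (path_nonneg h2).1 (not_le.2 ha')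
        · have := h2.2.2
          rwa [hn'] at this
      rw [Bool.eq_iff_iff]
      exact ⟨key x y x' y' m m' hx hy hx' hy' hxy hxy' h,
        key x' y' x y m' m hx' hy' hx hy hxy' hxy h.symm⟩
    · push Not at hi
      rw [Nat.testBit_lt_two_pow (lt_of_lt_of_le m.2 (Nat.pow_le_pow_right (by norm_num) hi)),
        Nat.testBit_lt_two_pow (lt_of_lt_of_le m'.2 (Nat.pow_le_pow_right (by norm_num) hi))]
  have hcard := Fintype.card_le_of_injective _ hinj
  simp only [Fintype.card_fin, Fintype.card_fun, Fintype.card_prop] at hcard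
  exact absurd ((Nat.pow_le_pow_iff_right (by norm_num)).1 hcard) (not_le.2 hj)

/-- **The number of isomorphism types.** For every positive integer `k` there are exactly `2 ^ ℵ₀`
isomorphism classes of projective algebras generated by `k` subsets of the plane; the same is true
for the projective algebras generated by `k` but not by fewer than `k` subsets of the plane. -/
theorem result (k : ℕ) (hk : 0 < k) :
    numberOfClasses (GeneratedBy k) = Cardinal.continuum ∧
    numberOfClasses (MinGeneratedBy k) = Cardinal.continuum :=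
  ⟨le_antisymm (upper (k := k) (fun _ h => h)) (lower hk fun r => ⟨gen k r, rfl⟩),
    le_antisymm (upper (k := k) (fun _ h => h.1))
      (lower hk fun r => ⟨⟨gen k r, rfl⟩, fun j hj => not_generatedBy k r j hj⟩)⟩

end Pool.Agent.Results.MP_71be7b_lc.ExactCount
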